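import Mathlib
import Pool.Agent.GA.MainY

set_option autoImplicit false

namespace Pool.Agent.Results.MP_73b532_nt.AllModuli

open Finset

/-- Let `k, m ≥ 1` and `p0` be integers.  There are `z`, `K ≥ 1` and `N0` such that for all `N ≥ N0`,
all `3 ≤ y ≤ N` and all completely additive `g : ℕ → ZMod k` with `g p = 1` for the primes
`p ≡ 1 mod m` with `p0 ≤ p ≤ z` there is a class `t` such that for every class `s` at least
`N / (K (log y) ^ K)` of the integers `a` with `√N < a ≤ N / 2` have this property: `a` and `N - a`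
have at most `K` prime factors `≤ y` each (counted with multiplicity) and
`g a + g (N - a) = t + 2 * s`.  For odd `k` these are all the classes. -/
theorem result (k : ℕ) (hk : 0 < k) (m : ℕ) (hm : 0 < m) (p0 : ℕ) :
    ∃ z K N0 : ℕ, 0 < K ∧ ∀ N y : ℕ, N0 ≤ N → 3 ≤ y → y ≤ N → ∀ g : ℕ → ZMod k,
      (∀ u v : ℕ, u ≠ 0 → v ≠ 0 → g (u * v) = g u + g v) →
      (∀ p : ℕ, p.Prime → p0 ≤ p → p ≤ z → p ≡ 1 [MOD m] → g p = 1) →
      ∃ t : ZMod k, ∀ s : ZMod k,
      (N : ℝ) / (K * Real.log y ^ K) ≤ ((range N).filter (fun a => N < a ^ 2 ∧ 2 * a ≤ N ∧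
        (a.primeFactorsList.filter (fun p => p ≤ y)).length ≤ K ∧
        ((N - a).primeFactorsList.filter (fun p => p ≤ y)).length ≤ K ∧
        g a + g (N - a) = t + 2 * s)).card :=
  Pool.Agent.GA.mainY k hk m hm p0

end Pool.Agent.Results.MP_73b532_nt.AllModuli
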