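import Pool.Agent.MRE.PatEnds

set_option autoImplicit false

/-!
# Bounded windows at both ends of the Knjzek range, for almost all `N`
-/

namespace Pool.Agent.Results.MP_73b532_nt.BoundedWindows

/-- For all `η > 0` there are `c > 0` and `H0` such that for all `H ≥ H0`, all real
`β ∈ (0, 1/2]` and all large `M` the following holds for all but at most `η M` of the `N ≤ M`:
for all `s, t`, at least `c H` integers `a ∈ (β N - H, β N]` and at least `c H` integers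
`a ∈ (√N, √N + H]` satisfy `Ω(a) ≡ s` and `Ω(N - a) ≡ t` modulo `2`. -/
theorem result (η : ℝ) (hη : 0 < η) :
    ∃ c : ℝ, 0 < c ∧ ∃ H0 : ℕ, ∀ H : ℕ, H0 ≤ H → ∀ β : ℝ, 0 < β → β ≤ 1 / 2 → ∃ M0 : ℕ, ∀ M : ℕ,
      M0 ≤ M → (Set.ncard {N : ℕ | 1 ≤ N ∧ N ≤ M ∧ ¬ ∀ s t : ℕ,
        c * H ≤ Set.ncard {a : ℕ | β * N - H < a ∧ (a : ℝ) ≤ β * N ∧
          ArithmeticFunction.cardFactors a ≡ s [MOD 2] ∧
          ArithmeticFunction.cardFactors (N - a) ≡ t [MOD 2]} ∧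
        c * H ≤ Set.ncard {a : ℕ | √(N : ℝ) < a ∧ (a : ℝ) ≤ √(N : ℝ) + H ∧
          ArithmeticFunction.cardFactors a ≡ s [MOD 2] ∧
          ArithmeticFunction.cardFactors (N - a) ≡ t [MOD 2]}} : ℝ) ≤ η * M :=
  Pool.Agent.MRE.patterns η hη

end Pool.Agent.Results.MP_73b532_nt.BoundedWindows
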