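import Mathlib
import Pool.Agent.GLI.RangeAll

set_option autoImplicit false

/-!
# All parity patterns of `(Ω(a), Ω(N - a))` in the range `√N < a ≤ N/2`, for all large `N`
-/

open Finset

namespace Pool.Agent.Results.MP_73b532_nt.FourPatternsPower

open Pool.Agent.GLI

theorem lam_one_iff (a s : ℕ) (h : s % 2 = 0) :
    lam a = 1 ↔ ArithmeticFunction.cardFactors a % 2 = s % 2 := by
  unfold lam
  rw [h, neg_one_pow_eq_one_iff_even (by norm_num), Nat.even_iff]

theorem lam_neg_one_iff (a s : ℕ) (h : s % 2 = 1) :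
    lam a = -1 ↔ ArithmeticFunction.cardFactors a % 2 = s % 2 := by
  unfold lam
  rw [h]
  constructor
  · intro h1
    rcases Nat.mod_two_eq_zero_or_one (ArithmeticFunction.cardFactors a) with h2 | h2
    · rw [(Nat.even_iff.2 h2).neg_one_pow] at h1
      norm_num at h1
    · exact h2
  · intro h1
    exact (Nat.odd_iff.2 h1).neg_one_pow

/-- The sign that belongs to the parity of `s`. -/
theorem lam_sign (s : ℕ) : ∃ e : ℤ, (e = 1 ∨ e = -1) ∧
    ∀ a : ℕ, lam a = e ↔ ArithmeticFunction.cardFactors a % 2 = s % 2 := by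
  rcases Nat.mod_two_eq_zero_or_one s with h | h
  · exact ⟨1, Or.inl rfl, fun a => lam_one_iff a s h⟩
  · exact ⟨-1, Or.inr rfl, fun a => lam_neg_one_iff a s h⟩

/-- Let `ε > 0`. For all large `N` and all `s`, `t`: at least `N^(1-ε)` of the integers `a` with
`√N < a ≤ N/2` are such that `Ω(a)` and `Ω(N - a)` have, in some order, the parities of `s` and of `t`. -/
theorem result (ε : ℝ) (hε : 0 < ε) : ∃ N₀ : ℕ, ∀ N : ℕ, N₀ ≤ N → ∀ s t : ℕ,
    (N : ℝ) ^ (1 - ε) ≤ (((Ioo 0 N).filter fun a => N < a ^ 2 ∧ 2 * a ≤ N ∧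
      ((ArithmeticFunction.cardFactors a % 2 = s % 2 ∧
          ArithmeticFunction.cardFactors (N - a) % 2 = t % 2) ∨
        (ArithmeticFunction.cardFactors a % 2 = t % 2 ∧
          ArithmeticFunction.cardFactors (N - a) % 2 = s % 2))).card : ℝ) := by
  obtain ⟨N₀, h0⟩ := Filter.eventually_atTop.1 (range_all ε hε)
  refine ⟨N₀, fun N hN s t => ?_⟩
  obtain ⟨e, he, h1⟩ := lam_sign s
  obtain ⟨f, hf, h2⟩ := lam_sign t
  have h3 := h0 N hN e f he hf
  simp only [h1, h2] at h3
  exact h3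

end Pool.Agent.Results.MP_73b532_nt.FourPatternsPower
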