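import Mathlib
import Pool.Agent.H78.Strict.S4

set_option autoImplicit false

/-!
# The parity analogue of the Goldbach–Knjzek conjecture, with two distinct summands
-/

namespace Pool.Agent.Results.MP_73b532_nt.StrictParity

open Pool.Agent.LamGold in
/-- Auxiliary form with squares. -/
theorem aux (n : ℕ) (hn : 2 < n) :
    ∃ a : ℕ, 2 * n < a * a ∧ a ≤ n ∧ fs a = -1 ∧ fs (2 * n - a) = -1 ∧
      (n ≠ 3 → n ≠ 5 → n ≠ 7 → a < n) := by
  rcases Nat.lt_or_ge n 8 with h | h
  · have e7 : fs 7 = -1 := fs_seven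
    interval_cases n
    · exact ⟨3, by norm_num, by norm_num, fs_three, fs_three, fun h => absurd rfl h⟩
    · exact ⟨3, by norm_num, by norm_num, fs_three, fs_five, fun _ _ _ => by norm_num⟩
    · exact ⟨5, by norm_num, by norm_num, fs_five, fs_five, fun _ h => absurd rfl h⟩
    · exact ⟨5, by norm_num, by norm_num, fs_five, fs_seven, fun _ _ _ => by norm_num⟩
    · exact ⟨7, by norm_num, by norm_num, fs_seven, fs_seven, fun _ _ h => absurd rfl h⟩
  · obtain ⟨a, h1, h2, h3, h4⟩ := Pool.Agent.H78.Strict.strict_exists h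
    exact ⟨a, h1, h2.le, h3, h4, fun _ _ _ => h2⟩

/-- For every `n > 2` there is an `a` with `√(2n) < a ≤ n` such that `a` and `2n - a` both have an
odd number of prime factors, counted with multiplicity; and `a < n` (so that the two summands are
distinct) unless `n` is `3`, `5` or `7`. -/
theorem result (n : ℕ) (hn : 2 < n) :
    ∃ a : ℕ, Odd (ArithmeticFunction.cardFactors a) ∧ Real.sqrt (2 * (n : ℝ)) < (a : ℝ) ∧
      a ≤ n ∧ (n ≠ 3 → n ≠ 5 → n ≠ 7 → a < n) ∧
      Odd (ArithmeticFunction.cardFactors (2 * n - a)) := by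
  obtain ⟨a, h1, h2, h3, h4, h5⟩ := aux n hn
  refine ⟨a, (Pool.Agent.LamGold.fs_eq_neg_one_iff a).1 h3, ?_, h2, h5,
    (Pool.Agent.LamGold.fs_eq_neg_one_iff _).1 h4⟩
  have hx0 : 0 < a := by
    rcases Nat.eq_zero_or_pos a with h | h
    · subst h; omega
    · exact h
  rw [Real.sqrt_lt' (by exact_mod_cast hx0)]
  have h6 : (2 : ℝ) * n < a * a := by exact_mod_cast h1
  linarith [sq (a : ℝ)]

end Pool.Agent.Results.MP_73b532_nt.StrictParity
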